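import Mathlib

namespace Pool.Agent.Results.MP_f5a18c_al.EveryAlgebraicLattice

universe u

/-! ### Universal algebra -/

/-- A signature: operation symbols with their arities. -/
structure Sig where
  Op : Type
  ar : Op → ℕ

/-- Algebras of signature `S`. -/
class Alg (S : Sig) (A : Type u) where
  op : (f : S.Op) → (Fin (S.ar f) → A) → A

/-- Terms of signature `S` in the variables `0, 1, 2, ...`. -/
inductive Tm (S : Sig) : Type
  | var : ℕ → Tm S
  | app : (f : S.Op) → (Fin (S.ar f) → Tm S) → Tm S

/-- The value of a term. -/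
def Tm.eval {S : Sig} {A : Type u} [Alg S A] (v : ℕ → A) : Tm S → A
  | .var n => v n
  | .app f ts => Alg.op f (fun i => (ts i).eval v)

/-- A quasi-identity: finitely many equations (the premises) imply an equation. -/
structure QId (S : Sig) where
  prem : List (Tm S × Tm S)
  lhs : Tm S
  rhs : Tm S

/-- The quasi-identity `q` holds in the algebra `A`. -/
def QId.Holds {S : Sig} (q : QId S) (A : Type u) [Alg S A] : Prop :=
  ∀ v : ℕ → A, (∀ e ∈ q.prem, e.1.eval v = e.2.eval v) → q.lhs.eval v = q.rhs.eval v

/-- `A` belongs to the quasivariety axiomatised by the set `K` of quasi-identities. -/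
def InQV {S : Sig} (K : Set (QId S)) (A : Type u) [Alg S A] : Prop :=
  ∀ q ∈ K, q.Holds A

/-- Congruences of the algebra `A`. -/
@[ext] structure Cong (S : Sig) (A : Type u) [Alg S A] where
  r : A → A → Prop
  equiv : Equivalence r
  compat : ∀ (f : S.Op) (x y : Fin (S.ar f) → A), (∀ i, r (x i) (y i)) →
    r (Alg.op f x) (Alg.op f y)

section Quotients

variable {S : Sig} {A : Type u} [Alg S A]

/-- The congruence as a setoid. -/
def Cong.setoid (θ : Cong S A) : Setoid A := ⟨θ.r, θ.equiv⟩

/-- The quotient of `A` by the congruence `θ`. -/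
abbrev Cong.Quo (θ : Cong S A) : Type u := Quotient θ.setoid

/-- The operations of the quotient algebra, computed on representatives. -/
noncomputable instance Cong.quoAlg (θ : Cong S A) : Alg S θ.Quo where
  op f x := Quotient.mk θ.setoid (Alg.op f fun i => (x i).out)

/-- The projection onto the quotient is a homomorphism. -/
theorem Cong.mk_op (θ : Cong S A) (f : S.Op) (a : Fin (S.ar f) → A) :
    Quotient.mk θ.setoid (Alg.op f a) = Alg.op f (fun i => Quotient.mk θ.setoid (a i)) := by
  apply Quotient.sound
  refine θ.compat f _ _ fun i => ?_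
  exact θ.equiv.symm (Quotient.mk_out (s := θ.setoid) (a i))

theorem Cong.eval_mk (θ : Cong S A) (v : ℕ → A) (t : Tm S) :
    t.eval (fun n => Quotient.mk θ.setoid (v n)) = Quotient.mk θ.setoid (t.eval v) := by
  induction t with
  | var n => rfl
  | app f ts ih =>
    simp only [Tm.eval]
    rw [θ.mk_op]
    congr 1
    funext i
    exact ih i

theorem Cong.holds_iff (θ : Cong S A) (q : QId S) : q.Holds θ.Quo ↔
    ∀ v : ℕ → A, (∀ e ∈ q.prem, θ.r (e.1.eval v) (e.2.eval v)) →
      θ.r (q.lhs.eval v) (q.rhs.eval v) := by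
  constructor
  · intro h v hv
    have h1 := h (fun n => Quotient.mk θ.setoid (v n)) (fun e he => by
      rw [θ.eval_mk, θ.eval_mk]
      exact Quotient.sound (hv e he))
    rw [θ.eval_mk, θ.eval_mk] at h1
    exact Quotient.exact h1
  · intro h v hv
    have hv' : v = fun n => Quotient.mk θ.setoid (v n).out := by
      funext n
      exact (Quotient.out_eq (v n)).symm
    rw [hv', θ.eval_mk, θ.eval_mk]
    apply Quotient.sound
    apply h
    intro e he
    have h1 := hv e he
    rw [hv', θ.eval_mk, θ.eval_mk] at h1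
    exact Quotient.exact h1

end Quotients

/-- The relative congruences of `A`: the congruences `θ` for which `A / θ` belongs to the
quasivariety axiomatised by `K`. -/
def RelCon {S : Sig} (K : Set (QId S)) (A : Type u) [Alg S A] : Type u :=
  {θ : Cong S A // InQV K θ.Quo}

/-- Relative congruences are ordered by inclusion. -/
instance {S : Sig} (K : Set (QId S)) (A : Type u) [Alg S A] : PartialOrder (RelCon K A) where
  le θ ψ := ∀ a b, θ.1.r a b → ψ.1.r a b
  le_refl _ _ _ h := h
  le_trans _ _ _ h1 h2 a b h := h2 a b (h1 a b h)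
  le_antisymm _ _ h1 h2 :=
    Subtype.ext (Cong.ext (funext fun a => funext fun b => propext ⟨h1 a b, h2 a b⟩))

/-- `L` is representable: it is isomorphic to the lattice of relative congruences of some
(nonempty) algebra `A` in some quasivariety of finite signature. -/
def Representable (L : Type u) [LE L] : Prop :=
  ∃ (S : Sig) (_ : Finite S.Op) (K : Set (QId S)) (A : Type u) (_ : Nonempty A) (_ : Alg S A),
    InQV K A ∧ Nonempty (L ≃o RelCon K A)

/-! ### The signature and the quasivariety -/

/-- Four operation symbols. -/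
inductive Sym
  | zero | lam | p | r

instance : Finite Sym := by
  refine Finite.of_surjective (fun i : Fin 4 => (![.zero, .lam, .p, .r] : Fin 4 → Sym) i) ?_
  intro s
  cases s
  · exact ⟨0, rfl⟩
  · exact ⟨1, rfl⟩
  · exact ⟨2, rfl⟩
  · exact ⟨3, rfl⟩

/-- One constant and three unary operations. -/
def sig : Sig where
  Op := Sym
  ar s := match s with
    | .zero => 0
    | .lam => 1
    | .p => 1
    | .r => 1

/-- The variable. -/
def x0 : Tm sig := .var 0

/-- The constant. -/
def z0 : Tm sig := .app Sym.zero (fun i => i.elim0)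

/-- Unary terms. -/
def tl : Tm sig := .app Sym.lam (fun _ => x0)
def tp : Tm sig := .app Sym.p (fun _ => x0)
def tr : Tm sig := .app Sym.r (fun _ => x0)

/-- `lam x = 0` implies `x = 0`. -/
def q1 : QId sig := ⟨[(tl, z0)], x0, z0⟩
/-- `p x = 0` and `r x = 0` imply `x = 0`. -/
def q2 : QId sig := ⟨[(tp, z0), (tr, z0)], x0, z0⟩
/-- `p x = r x` implies `p x = 0`. -/
def q3 : QId sig := ⟨[(tp, tr)], tp, z0⟩

/-- The axioms of the quasivariety. -/
def axioms : Set (QId sig) := {q1, q2, q3}

/-! ### The algebra -/

section Construction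

variable (L : Type u) [CompleteLattice L]

/-- The compact elements. -/
abbrev Cpt : Type u := {k : L // IsCompactElement k}

/-- Binary trees with leaves labelled by compact elements. -/
inductive Tree : Type u
  | base : Cpt L → Tree
  | pair : Tree → Tree → Tree

variable {L}

/-- The join of the labels of the leaves. -/
def Tree.lab : Tree L → L
  | .base c => c.1
  | .pair s t => s.lab ⊔ t.lab

/-- No subtree has two equal sons. -/
def Tree.Good : Tree L → Prop
  | .base _ => True
  | .pair s t => s.Good ∧ t.Good ∧ s ≠ t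

theorem compact_bot : IsCompactElement (⊥ : L) := by
  have := CompleteLattice.isCompactElement_finsetSup (f := fun k : L => k) (∅ : Finset L)
    (by simp)
  simpa using this

theorem compact_sup {a b : L} (ha : IsCompactElement a) (hb : IsCompactElement b) :
    IsCompactElement (a ⊔ b) := by
  classical
  have := CompleteLattice.isCompactElement_finsetSup (f := fun k : L => k) ({a, b} : Finset L)
    (by
      intro x hx
      rcases Finset.mem_insert.1 hx with rfl | hx
      · exact ha
      · rw [Finset.mem_singleton] at hx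
        exact hx ▸ hb)
  simpa using this

theorem Tree.lab_compact (t : Tree L) : IsCompactElement t.lab := by
  induction t with
  | base c => exact c.2
  | pair s t hs ht => exact compact_sup hs ht

variable (L) in
/-- The universe of the algebra. -/
abbrev Al : Type u := {t : Tree L // t.Good}

/-- The label of an element. -/
def lb (t : Al L) : L := t.1.lab

/-- The leaf with label `c`. -/
def bs (c : Cpt L) : Al L := ⟨.base c, trivial⟩

/-- The zero element. -/
def zr : Al L := bs ⟨⊥, compact_bot⟩

/-- The unary operation giving the leaf with the same label. -/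
def lm (t : Al L) : Al L := bs ⟨lb t, t.1.lab_compact⟩

/-- First son. -/
def pp (t : Al L) : Al L :=
  match t with
  | ⟨.base c, h⟩ => ⟨.base c, h⟩
  | ⟨.pair s _, h⟩ => ⟨s, h.1⟩

/-- Second son. -/
def rr (t : Al L) : Al L :=
  match t with
  | ⟨.base _, _⟩ => zr
  | ⟨.pair _ s, h⟩ => ⟨s, h.2.1⟩

instance : Alg sig (Al L) where
  op f := match f with
    | .zero => fun _ => zr
    | .lam => fun x : Fin 1 → Al L => lm (x 0)
    | .p => fun x : Fin 1 → Al L => pp (x 0)
    | .r => fun x : Fin 1 → Al L => rr (x 0)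

/-- The pair of two distinct elements. -/
def pr (s t : Al L) (h : s ≠ t) : Al L :=
  ⟨.pair s.1 t.1, s.2, t.2, fun e => h (Subtype.ext e)⟩

@[simp] theorem lb_bs (c : Cpt L) : lb (bs c) = c.1 := rfl
@[simp] theorem lb_zr : lb (zr : Al L) = ⊥ := rfl
@[simp] theorem lb_lm (t : Al L) : lb (lm t) = lb t := rfl
@[simp] theorem lb_pr (s t : Al L) (h : s ≠ t) : lb (pr s t h) = lb s ⊔ lb t := rfl
@[simp] theorem pp_pr (s t : Al L) (h : s ≠ t) : pp (pr s t h) = s := rfl
@[simp] theorem rr_pr (s t : Al L) (h : s ≠ t) : rr (pr s t h) = t := rfl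
@[simp] theorem pp_zr : pp (zr : Al L) = zr := rfl
@[simp] theorem rr_zr : rr (zr : Al L) = zr := rfl

theorem lb_pp_le (t : Al L) : lb (pp t) ≤ lb t := by
  rcases t with ⟨t, ht⟩
  cases t with
  | base c => exact le_rfl
  | pair s t => exact le_sup_left (a := s.lab)

theorem lb_rr_le (t : Al L) : lb (rr t) ≤ lb t := by
  rcases t with ⟨t, ht⟩
  cases t with
  | base c => exact bot_le
  | pair s t => exact le_sup_right (a := s.lab)

theorem lb_le (t : Al L) : lb t ≤ lb (pp t) ⊔ lb (rr t) := by
  rcases t with ⟨t, ht⟩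
  cases t with
  | base c => exact le_sup_left (a := lb (bs c))
  | pair s t => exact le_rfl

theorem eq_zr_of_pp_eq_rr (t : Al L) (h : pp t = rr t) : pp t = zr := by
  rcases t with ⟨t, ht⟩
  cases t with
  | base c => exact h
  | pair s t => exact absurd (congrArg Subtype.val h) ht.2.2

/-- The congruence belonging to the element `x` of `L`. -/
def cg (x : L) : Cong sig (Al L) where
  r s t := s = t ∨ (lb s ≤ x ∧ lb t ≤ x)
  equiv := by
    refine ⟨fun s => Or.inl rfl, ?_, ?_⟩
    · rintro s t (h | h)
      · exact Or.inl h.symm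
      · exact Or.inr h.symm
    · rintro s t w (h | h) (h' | h')
      · exact Or.inl (h.trans h')
      · exact Or.inr (h ▸ h')
      · exact Or.inr (h' ▸ h)
      · exact Or.inr ⟨h.1, h'.2⟩
  compat := by
    intro f a b hab
    cases f with
    | zero => exact Or.inl rfl
    | lam =>
      change Fin 1 → Al L at a
      change Fin 1 → Al L at b
      rcases hab (0 : Fin 1) with h | h
      · exact Or.inl (congrArg lm h)
      · exact Or.inr h
    | p =>
      change Fin 1 → Al L at a
      change Fin 1 → Al L at b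
      rcases hab (0 : Fin 1) with h | h
      · exact Or.inl (congrArg pp h)
      · exact Or.inr ⟨(lb_pp_le _).trans h.1, (lb_pp_le _).trans h.2⟩
    | r =>
      change Fin 1 → Al L at a
      change Fin 1 → Al L at b
      rcases hab (0 : Fin 1) with h | h
      · exact Or.inl (congrArg rr h)
      · exact Or.inr ⟨(lb_rr_le _).trans h.1, (lb_rr_le _).trans h.2⟩

theorem cg_zr (x : L) (t : Al L) : (cg x).r t zr ↔ lb t ≤ x ∨ t = zr := by
  constructor
  · rintro (h | h)
    · exact Or.inr h
    · exact Or.inl h.1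
  · rintro (h | h)
    · exact Or.inr ⟨h, bot_le⟩
    · exact Or.inl h

theorem lb_le_of_cg_zr {x : L} {t : Al L} (h : (cg x).r t zr) : lb t ≤ x := by
  rcases (cg_zr x t).1 h with h | h
  · exact h
  · rw [h]; exact bot_le

theorem cg_zr_of_lb_le {x : L} {t : Al L} (h : lb t ≤ x) : (cg x).r t zr :=
  (cg_zr x t).2 (Or.inl h)

theorem eval_tl (v : ℕ → Al L) : tl.eval v = lm (v 0) := rfl
theorem eval_tp (v : ℕ → Al L) : tp.eval v = pp (v 0) := rfl
theorem eval_tr (v : ℕ → Al L) : tr.eval v = rr (v 0) := rfl
theorem eval_z0 (v : ℕ → Al L) : z0.eval v = zr := rfl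
theorem eval_x0 (v : ℕ → Al L) : x0.eval v = v 0 := rfl

theorem inQV_cg (x : L) : InQV axioms (cg x).Quo := by
  intro q hq
  rw [Cong.holds_iff]
  intro v hv
  rcases hq with rfl | rfl | rfl
  · have h := hv (tl, z0) (by simp [q1])
    change (cg x).r (v 0) zr
    exact cg_zr_of_lb_le (lb_le_of_cg_zr (t := lm (v 0)) h)
  · have h1 := hv (tp, z0) (by simp [q2])
    have h2 := hv (tr, z0) (by simp [q2])
    change (cg x).r (v 0) zr
    exact cg_zr_of_lb_le ((lb_le (v 0)).trans
      (sup_le (lb_le_of_cg_zr (t := pp (v 0)) h1) (lb_le_of_cg_zr (t := rr (v 0)) h2)))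
  · have h := hv (tp, tr) (by simp [q3])
    change (cg x).r (pp (v 0)) zr
    rcases h with h | h
    · exact Or.inl (eq_zr_of_pp_eq_rr _ h)
    · exact cg_zr_of_lb_le h.1

/-- The relations in a quotient of the algebra that satisfies the axioms. -/
theorem quo_rules (φ : Cong sig (Al L)) (h : InQV axioms φ.Quo) :
    (∀ t, φ.r (lm t) zr → φ.r t zr) ∧ (∀ t, φ.r (pp t) zr → φ.r (rr t) zr → φ.r t zr) ∧
      (∀ t, φ.r (pp t) (rr t) → φ.r (pp t) zr) := by
  refine ⟨fun t ht => ?_, fun t h1 h2 => ?_, fun t ht => ?_⟩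
  · have := (φ.holds_iff q1).1 (h q1 (by simp [axioms])) (fun _ => t) (by
      intro e he
      simp only [q1, List.mem_singleton] at he
      subst he
      exact ht)
    exact this
  · have := (φ.holds_iff q2).1 (h q2 (by simp [axioms])) (fun _ => t) (by
      intro e he
      simp only [q2, List.mem_cons, List.not_mem_nil, or_false] at he
      rcases he with rfl | rfl
      · exact h1
      · exact h2)
    exact this
  · have := (φ.holds_iff q3).1 (h q3 (by simp [axioms])) (fun _ => t) (by
      intro e he
      simp only [q3, List.mem_singleton] at he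
      subst he
      exact ht)
    exact this

theorem cong_lm (φ : Cong sig (Al L)) {s t : Al L} (h : φ.r s t) : φ.r (lm s) (lm t) :=
  φ.compat Sym.lam (fun _ => s) (fun _ => t) (fun _ => h)

theorem cong_pp (φ : Cong sig (Al L)) {s t : Al L} (h : φ.r s t) : φ.r (pp s) (pp t) :=
  φ.compat Sym.p (fun _ => s) (fun _ => t) (fun _ => h)

theorem cong_rr (φ : Cong sig (Al L)) {s t : Al L} (h : φ.r s t) : φ.r (rr s) (rr t) :=
  φ.compat Sym.r (fun _ => s) (fun _ => t) (fun _ => h)

/-- Every relative congruence is one of the congruences `cg x`. -/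
theorem exists_cg [IsCompactlyGenerated L] (φ : Cong sig (Al L)) (h : InQV axioms φ.Quo) :
    ∃ x : L, ∀ s t, (cg x).r s t ↔ φ.r s t := by
  obtain ⟨h1, h2, h3⟩ := quo_rules φ h
  let I : Set L := {c | ∃ hc : IsCompactElement c, φ.r (bs ⟨c, hc⟩) zr}
  have hlb : ∀ t : Al L, φ.r t zr ↔ lb t ∈ I := by
    intro t
    constructor
    · intro ht
      exact ⟨t.1.lab_compact, φ.equiv.trans (cong_lm φ ht) (φ.equiv.refl _)⟩
    · rintro ⟨hc, ht⟩
      exact h1 t ht
  have hbot : (⊥ : L) ∈ I := ⟨compact_bot, φ.equiv.refl _⟩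
  have hdown : ∀ c d : L, c ∈ I → IsCompactElement d → d ≤ c → d ∈ I := by
    intro c d hc hd hdc
    by_cases hne : d = c
    · rw [hne]; exact hc
    have hne' : (bs ⟨c, hc.choose⟩ : Al L) ≠ bs ⟨d, hd⟩ := by
      intro e
      have := congrArg lb e
      exact hne this.symm
    have ht : φ.r (pr _ _ hne') zr := by
      rw [hlb, lb_pr, lb_bs, lb_bs]
      change c ⊔ d ∈ I
      rw [sup_eq_left.2 hdc]
      exact hc
    have := cong_rr φ ht
    rw [rr_pr, rr_zr] at this
    exact ⟨hd, this⟩
  have hsup : ∀ c d : L, c ∈ I → d ∈ I → c ⊔ d ∈ I := by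
    intro c d hc hd
    by_cases hne : c = d
    · rw [hne, sup_idem]; exact hd
    have hne' : (bs ⟨c, hc.choose⟩ : Al L) ≠ bs ⟨d, hd.choose⟩ := by
      intro e
      exact hne (congrArg lb e)
    have ht : φ.r (pr _ _ hne') zr := by
      apply h2
      · rw [pp_pr]; exact hc.choose_spec
      · rw [rr_pr]; exact hd.choose_spec
    rw [hlb] at ht
    exact ht
  have hmem : ∀ c : L, IsCompactElement c → (c ≤ sSup I ↔ c ∈ I) := by
    intro c hc
    constructor
    · intro hle
      have hdir : DirectedOn (· ≤ ·) I := fun a ha b hb =>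
        ⟨a ⊔ b, hsup a b ha hb, le_sup_left, le_sup_right⟩
      obtain ⟨d, hd, hcd⟩ := (CompleteLattice.isCompactElement_iff_le_of_directed_sSup_le L c).1 hc
        I ⟨⊥, hbot⟩ hdir hle
      exact hdown d c hd hc hcd
    · intro h
      exact le_sSup h
  have hlab : ∀ t : Al L, lb t ≤ sSup I ↔ φ.r t zr := fun t => by
    rw [hlb]; exact hmem (lb t) t.1.lab_compact
  refine ⟨sSup I, fun s t => ⟨?_, ?_⟩⟩
  · rintro (h | h)
    · rw [h]; exact φ.equiv.refl _
    · exact φ.equiv.trans ((hlab s).1 h.1) (φ.equiv.symm ((hlab t).1 h.2))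
  · intro hst
    by_cases hne : s = t
    · exact Or.inl hne
    have hs : φ.r s zr := by
      have h4 := h3 (pr s t hne)
      rw [pp_pr, rr_pr] at h4
      exact h4 hst
    have ht : φ.r t zr := φ.equiv.trans (φ.equiv.symm hst) hs
    exact Or.inr ⟨(hlab s).2 hs, (hlab t).2 ht⟩

theorem cg_le_iff [IsCompactlyGenerated L] (x y : L) :
    x ≤ y ↔ ∀ s t, (cg x).r s t → (cg y).r s t := by
  constructor
  · rintro hxy s t (h | h)
    · exact Or.inl h
    · exact Or.inr ⟨h.1.trans hxy, h.2.trans hxy⟩
  · intro h
    rw [le_iff_compact_le_imp]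
    intro c hc hcx
    exact lb_le_of_cg_zr (t := bs ⟨c, hc⟩) (h _ _ (cg_zr_of_lb_le hcx))

theorem inQV_alg : InQV axioms (Al L) := by
  intro q hq v hv
  have hz : ∀ t : Al L, lb t = ⊥ → t = zr := by
    rintro ⟨t, ht⟩
    induction t with
    | base c =>
      intro h
      refine Subtype.ext (congrArg Tree.base (Subtype.ext ?_))
      exact h
    | pair a b iha ihb =>
      intro h
      have h' : a.lab ⊔ b.lab = ⊥ := h
      rw [sup_eq_bot_iff] at h'
      have e1 := iha ht.1 h'.1
      have e2 := ihb ht.2.1 h'.2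
      exact absurd ((congrArg Subtype.val e1).trans (congrArg Subtype.val e2).symm) ht.2.2
  rcases hq with rfl | rfl | rfl
  · have h := hv (tl, z0) (by simp [q1])
    change lm (v 0) = zr at h
    exact hz _ (congrArg lb h)
  · have h1 := hv (tp, z0) (by simp [q2])
    have h2 := hv (tr, z0) (by simp [q2])
    change pp (v 0) = zr at h1
    change rr (v 0) = zr at h2
    apply hz
    have := lb_le (v 0)
    rw [h1, h2, lb_zr, sup_idem] at this
    exact le_bot_iff.1 this
  · have h := hv (tp, tr) (by simp [q3])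
    exact eq_zr_of_pp_eq_rr _ h

end Construction

/-- **Every algebraic lattice is representable.** -/
theorem result (L : Type u) [CompleteLattice L] [IsCompactlyGenerated L] : Representable L := by
  refine ⟨sig, inferInstanceAs (Finite Sym), axioms, Al L, ⟨zr⟩, inferInstance, inQV_alg, ?_⟩
  let e : L → RelCon axioms (Al L) := fun x => ⟨cg x, inQV_cg x⟩
  have he : ∀ x y, e x ≤ e y ↔ x ≤ y := fun x y => (cg_le_iff x y).symm
  have hinj : Function.Injective e := fun x y hxy =>
    le_antisymm ((he x y).1 hxy.le) ((he y x).1 hxy.ge)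
  have hsurj : Function.Surjective e := by
    intro φ
    obtain ⟨x, hx⟩ := exists_cg φ.1 φ.2
    exact ⟨x, Subtype.ext (Cong.ext (funext fun s => funext fun t => propext (hx s t)))⟩
  exact ⟨⟨Equiv.ofBijective e ⟨hinj, hsurj⟩, fun {x y} => he x y⟩⟩

end Pool.Agent.Results.MP_f5a18c_al.EveryAlgebraicLattice
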